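import Pool.Agent.Q116.OrL21Final

namespace Pool.Agent.Results.MP_fff0e1_co.TwoKSquared

open Filter Topology Q116.OrL21

theorem result : ∃ ε : ℕ → ℝ, Tendsto ε atTop (𝓝 0) ∧ ∀ᶠ k : ℕ in atTop,
    ∃ (V : Type) (_ : Fintype V) (G : OrientedGraph V),
      (∀ v, (outdeg G v : ℝ) ≤ (1 + ε k) * k) ∧ (∀ v, (indeg G v : ℝ) ≤ (1 + ε k) * k) ∧
        2 * k ^ 2 ≤ lambda G :=
  Q116.OrL21.main

end Pool.Agent.Results.MP_fff0e1_co.TwoKSquared
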